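import Pool.Agent.Y272.EX.Stm

set_option autoImplicit false

/-! # A disc mapped into itself contains an attracting fixed point -/

namespace Pool.Agent.Y309.EXF.Trap

open Set Filter Metric Topology Pool.Agent.Y272.EX


private theorem main_bound (g : ℂ → ℂ) (κ : ℂ) (ρ r δ : ℝ) (hg : Differentiable ℂ g)
    (hδ0 : 0 < δ) (hδ : r + δ * (2 * r) ≤ ρ)
    (hgr : ∀ z ∈ closedBall κ ρ, ‖g z - κ‖ ≤ r) (hrρ : r < ρ) (k : ℕ) :
    ∀ f : ℂ → ℂ, Differentiable ℂ f → (∀ w ∈ closedBall κ ρ, ‖f w‖ ≤ 1) → ∀ z : ℂ, ‖z - κ‖ < ρ →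
      ‖deriv f (g^[k] z)‖ * ‖deriv (g^[k]) z‖ ≤ (1 + δ)⁻¹ ^ k / (ρ - ‖z - κ‖) := by
  induction k with
  | zero =>
    intro f hf hf1 z hz
    have hR : 0 < ρ - ‖z - κ‖ := by linarith
    have h1 : ‖deriv f z‖ ≤ 1 / (ρ - ‖z - κ‖) := by
      refine Complex.norm_deriv_le_of_forall_mem_sphere_norm_le hR hf.diffContOnCl fun w hw => ?_
      apply hf1
      rw [mem_sphere_iff_norm] at hw
      rw [mem_closedBall_iff_norm]
      have h2 : ‖w - κ‖ ≤ ‖w - z‖ + ‖z - κ‖ := norm_sub_le_norm_sub_add_norm_sub w z κ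
      linarith
    have h3 : deriv (g^[0]) z = 1 := by
      rw [Function.iterate_zero]
      exact deriv_id z
    rw [h3, norm_one, mul_one, pow_zero]
    exact h1
  | succ k ih =>
    intro f hf hf1 z hz
    set y := g^[k] z with hy
    have hmaps : ∀ n : ℕ, ‖g^[n] z - κ‖ < ρ := by
      intro n
      induction n with
      | zero => exact hz
      | succ n ihn =>
        rw [Function.iterate_succ', Function.comp_apply]
        exact (hgr _ (mem_closedBall_iff_norm.2 ihn.le)).trans_lt hrρ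
    have hyb : ‖g y - κ‖ ≤ r := hgr y (mem_closedBall_iff_norm.2 (hmaps k).le)
    have hGd : Differentiable ℂ (fun w => g w + δ * (g w - g y)) :=
      hg.add ((hg.sub_const _).const_mul _)
    have hFd : Differentiable ℂ (fun w => f (g w + δ * (g w - g y))) := hf.comp hGd
    have hF1 : ∀ w ∈ closedBall κ ρ, ‖f (g w + δ * (g w - g y))‖ ≤ 1 := by
      intro w hw
      apply hf1
      rw [mem_closedBall_iff_norm]
      have h1 := hgr w hw
      have h2 : ‖g w - g y‖ ≤ 2 * r := by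
        have h3 : ‖g w - g y‖ ≤ ‖g w - κ‖ + ‖κ - g y‖ := norm_sub_le_norm_sub_add_norm_sub _ _ _
        rw [norm_sub_rev κ] at h3
        linarith
      have h4 : ‖(δ : ℂ) * (g w - g y)‖ ≤ δ * (2 * r) := by
        rw [norm_mul, Complex.norm_real, Real.norm_of_nonneg hδ0.le]
        exact mul_le_mul_of_nonneg_left h2 hδ0.le
      calc ‖g w + δ * (g w - g y) - κ‖ = ‖(g w - κ) + δ * (g w - g y)‖ := by ring_nf
        _ ≤ ‖g w - κ‖ + ‖(δ : ℂ) * (g w - g y)‖ := norm_add_le _ _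
        _ ≤ ρ := by linarith
    have hih := ih _ hFd hF1 z hz
    rw [← hy] at hih
    have hder : deriv (fun w => f (g w + δ * (g w - g y))) y = (1 + δ) * (deriv f (g y) * deriv g y) := by
      have e1 : HasDerivAt (fun w => g w + δ * (g w - g y)) (deriv g y + δ * deriv g y) y :=
        (hg y).hasDerivAt.add (((hg y).hasDerivAt.sub_const _).const_mul _)
      have e2 : HasDerivAt f (deriv f (g y)) (g y + δ * (g y - g y)) := by
        have : g y + δ * (g y - g y) = g y := by ring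
        rw [this]
        exact (hf (g y)).hasDerivAt
      have e3 := (e2.comp y e1).deriv
      have e4 : (f ∘ fun w => g w + δ * (g w - g y)) = fun w => f (g w + δ * (g w - g y)) := rfl
      rw [e4] at e3
      rw [e3]
      ring
    have hit : deriv (g^[k + 1]) z = deriv g y * deriv (g^[k]) z := by
      rw [Function.iterate_succ']
      exact deriv_comp z (hg _) ((hg.iterate k) z)
    rw [hder] at hih
    rw [hit, Function.iterate_succ', Function.comp_apply, ← hy]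
    have h5 : ‖(1 + (δ : ℂ)) * (deriv f (g y) * deriv g y)‖ =
        (1 + δ) * (‖deriv f (g y)‖ * ‖deriv g y‖) := by
      rw [norm_mul, norm_mul]
      congr 1
      have : (1 + (δ : ℂ)) = ((1 + δ : ℝ) : ℂ) := by push_cast; ring
      rw [this, Complex.norm_real, Real.norm_of_nonneg (by linarith)]
    rw [h5] at hih
    rw [norm_mul]
    have h6 : 0 < 1 + δ := by linarith
    have h7 : (1 + δ)⁻¹ ^ (k + 1) / (ρ - ‖z - κ‖) =
        (1 + δ)⁻¹ * ((1 + δ)⁻¹ ^ k / (ρ - ‖z - κ‖)) := by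
      rw [pow_succ]; ring
    rw [h7, ← div_eq_inv_mul, le_div_iff₀ h6]
    calc ‖deriv f (g y)‖ * (‖deriv g y‖ * ‖deriv g^[k] z‖) * (1 + δ)
        = (1 + δ) * (‖deriv f (g y)‖ * ‖deriv g y‖) * ‖deriv g^[k] z‖ := by ring
      _ ≤ _ := hih

private theorem iter_bound (g : ℂ → ℂ) (κ : ℂ) (ρ r δ : ℝ) (hg : Differentiable ℂ g)
    (hρ : 0 < ρ)
    (hδ0 : 0 < δ) (hδ : r + δ * (2 * r) ≤ ρ)
    (hgr : ∀ z ∈ closedBall κ ρ, ‖g z - κ‖ ≤ r) (hrρ : r < ρ) (k : ℕ) (z : ℂ)
    (hz : z ∈ closedBall κ r) :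
    ‖deriv (g^[k]) z‖ ≤ ρ / (ρ - r) * (1 + δ)⁻¹ ^ k := by
  rw [mem_closedBall_iff_norm] at hz
  have hfd : Differentiable ℂ (fun w : ℂ => (w - κ) / ρ) := by fun_prop
  have h1 := main_bound g κ ρ r δ hg hδ0 hδ hgr hrρ k (fun w : ℂ => (w - κ) / ρ) hfd
    (fun w hw => by
      rw [mem_closedBall_iff_norm] at hw
      rw [norm_div, Complex.norm_real, Real.norm_of_nonneg hρ.le, div_le_one hρ]
      exact hw) z (by linarith)
  have h2 : ∀ y : ℂ, deriv (fun w : ℂ => (w - κ) / ρ) y = 1 / ρ := by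
    intro y
    have : HasDerivAt (fun w : ℂ => (w - κ) / ρ) (1 / ρ) y :=
      ((hasDerivAt_id y).sub_const κ).div_const _
    exact this.deriv
  rw [h2, norm_div, norm_one, Complex.norm_real, Real.norm_of_nonneg hρ.le] at h1
  have h3 : (1 + δ)⁻¹ ^ k / (ρ - ‖z - κ‖) ≤ (1 + δ)⁻¹ ^ k / (ρ - r) := by
    apply div_le_div_of_nonneg_left (by positivity) (by linarith) (by linarith)
  have h4 : 1 / ρ * ‖deriv g^[k] z‖ ≤ (1 + δ)⁻¹ ^ k / (ρ - r) := h1.trans h3
  rw [one_div, ← div_eq_inv_mul, div_le_iff₀ hρ] at h4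
  calc ‖deriv g^[k] z‖ ≤ (1 + δ)⁻¹ ^ k / (ρ - r) * ρ := h4
    _ = _ := by ring

theorem t : S_TRAP := by
  intro g κ ρ hρ hg hmap
  -- the image lies in a smaller disc
  obtain ⟨r, hr0, hrρ, hgr⟩ : ∃ r : ℝ, 0 ≤ r ∧ r < ρ ∧ ∀ z ∈ closedBall κ ρ, ‖g z - κ‖ ≤ r := by
    have hc : ContinuousOn (fun z => ‖g z - κ‖) (closedBall κ ρ) :=
      (hg.continuous.sub continuous_const).norm.continuousOn
    obtain ⟨z, hz, hmax⟩ := (isCompact_closedBall κ ρ).exists_isMaxOn
      ⟨κ, mem_closedBall_self hρ.le⟩ hc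
    refine ⟨‖g z - κ‖, norm_nonneg _, ?_, fun w hw => hmax hw⟩
    exact mem_ball_iff_norm.1 (hmap z hz)
  set δ : ℝ := (ρ - r) / (2 * ρ) with hδd
  have hδ0 : 0 < δ := div_pos (by linarith) (by linarith)
  have hδ : r + δ * (2 * r) ≤ ρ := by
    have h1 : δ * (2 * r) = (ρ - r) * (r / ρ) := by rw [hδd]; field_simp
    have h2 : r / ρ ≤ 1 := by rw [div_le_one hρ]; exact hrρ.le
    have h3 : (ρ - r) * (r / ρ) ≤ (ρ - r) * 1 := mul_le_mul_of_nonneg_left h2 (by linarith)
    rw [h1]; linarith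
  have hq0 : 0 ≤ (1 + δ)⁻¹ := by positivity
  have hq1 : (1 + δ)⁻¹ < 1 := inv_lt_one_of_one_lt₀ (by linarith)
  set M : ℝ := ρ / (ρ - r) with hM
  have hM0 : 0 ≤ M := div_nonneg hρ.le (by linarith)
  have hb := fun k z hz => iter_bound g κ ρ r δ hg hρ hδ0 hδ hgr hrρ k z hz
  have hlip : ∀ (k : ℕ) (z w : ℂ), z ∈ closedBall κ r → w ∈ closedBall κ r →
      ‖g^[k] w - g^[k] z‖ ≤ M * (1 + δ)⁻¹ ^ k * ‖w - z‖ := by
    intro k z w hz hw
    exact Convex.norm_image_sub_le_of_norm_deriv_le (fun x _ => (hg.iterate k) x)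
      (fun x hx => hb k x hx) (convex_closedBall κ r) hz hw
  have hκr : κ ∈ closedBall κ r := mem_closedBall_self hr0
  have hgmem : ∀ z ∈ closedBall κ ρ, g z ∈ closedBall κ r := fun z hz =>
    mem_closedBall_iff_norm.2 (hgr z hz)
  have hcauchy : CauchySeq (fun k => g^[k] κ) := by
    refine cauchySeq_of_le_geometric (1 + δ)⁻¹ (M * ‖g κ - κ‖) hq1 fun k => ?_
    rw [dist_eq_norm, norm_sub_rev, Function.iterate_succ_apply]
    have h1 := hlip k κ (g κ) hκr (hgmem κ (mem_closedBall_self hρ.le))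
    calc ‖g^[k] (g κ) - g^[k] κ‖ ≤ M * (1 + δ)⁻¹ ^ k * ‖g κ - κ‖ := h1
      _ = M * ‖g κ - κ‖ * (1 + δ)⁻¹ ^ k := by ring
  obtain ⟨x, hx⟩ := cauchySeq_tendsto_of_complete hcauchy
  have hxfix : g x = x := by
    have h1 : Tendsto (fun k => g^[k + 1] κ) atTop (𝓝 x) := (tendsto_add_atTop_iff_nat 1).2 hx
    have h2 : Tendsto (fun k => g (g^[k] κ)) atTop (𝓝 (g x)) :=
      (hg.continuous.tendsto x).comp hx
    refine tendsto_nhds_unique (h2.congr fun k => ?_) h1
    rw [Function.iterate_succ_apply']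
  have hmem : ∀ k, g^[k] κ ∈ closedBall κ ρ := by
    intro k
    induction k with
    | zero => exact mem_closedBall_self hρ.le
    | succ k ih =>
      rw [Function.iterate_succ_apply']
      exact ball_subset_closedBall (hmap _ ih)
  have hxB : x ∈ closedBall κ ρ :=
    isClosed_closedBall.mem_of_tendsto hx (Eventually.of_forall hmem)
  have hxball : x ∈ ball κ ρ := by
    have := hmap x hxB
    rwa [hxfix] at this
  have hxr : x ∈ closedBall κ r := by
    have := hgmem x hxB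
    rwa [hxfix] at this
  have hqlim : Tendsto (fun k : ℕ => M * (1 + δ)⁻¹ ^ k) atTop (𝓝 0) := by
    have h1 := (tendsto_pow_atTop_nhds_zero_of_lt_one hq0 hq1).const_mul M
    rwa [mul_zero] at h1
  refine ⟨x, hxball, hxfix, ?_, ?_⟩
  · by_contra hcon
    push Not at hcon
    have h1 : ∀ k : ℕ, 1 ≤ M * (1 + δ)⁻¹ ^ k := by
      intro k
      have h2 := hb k x hxr
      have h3 : deriv (g^[k]) x = (deriv g x) ^ k :=
        (HasDerivAt.iterate x (hg x).hasDerivAt hxfix k).deriv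
      rw [h3, norm_pow] at h2
      exact (one_le_pow₀ hcon).trans h2
    have h4 : (1 : ℝ) ≤ 0 := ge_of_tendsto hqlim (Eventually.of_forall h1)
    linarith
  · intro z hz
    have h1 : Tendsto (fun k => g^[k + 1] z) atTop (𝓝 x) := by
      rw [tendsto_iff_norm_sub_tendsto_zero]
      have h2 : Tendsto (fun k : ℕ => M * (1 + δ)⁻¹ ^ k * ‖g z - x‖) atTop (𝓝 0) := by
        have := hqlim.mul_const ‖g z - x‖
        rwa [zero_mul] at this
      refine squeeze_zero (fun _ => norm_nonneg _) (fun k => ?_) h2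
      have h3 := hlip k x (g z) hxr (hgmem z hz)
      rw [Function.iterate_fixed hxfix k] at h3
      rwa [Function.iterate_succ_apply]
    exact (tendsto_add_atTop_iff_nat 1).1 h1

end Pool.Agent.Y309.EXF.Trap
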